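import Mathlib
import Pool.Agent.H61.BanE

set_option autoImplicit false

namespace Pool.Agent.Results.MP_94b3e1_an.Separable

open Pool.Agent.H93 RecDefs Topology

theorem result :
    ∀ (𝕂 : Type) [RCLike 𝕂] (X : Type) [NormedAddCommGroup X] [NormedSpace 𝕂 X]
      [CompleteSpace X] [TopologicalSpace.SeparableSpace X] (T : X →L[𝕂] X),
      Dense {x : X | ∀ U ∈ 𝓝 x, ∃ δ : ℝ, 0 < δ ∧ ∀ N : ℕ, 1 ≤ N → ∃ m : ℕ,
          δ * (N : ℝ) ≤ (({n : ℕ | m ≤ n ∧ n < m + N ∧ (T ^ n) x ∈ U}).ncard : ℝ)} →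
      ∃ M : Submodule 𝕂 X, Dense (M : Set X) ∧
        ∀ x ∈ M, ∀ U ∈ 𝓝 x, ∃ δ : ℝ, 0 < δ ∧ ∀ N : ℕ, 1 ≤ N → ∃ m : ℕ,
          δ * (N : ℝ) ≤ (({n : ℕ | m ≤ n ∧ n < m + N ∧ (T ^ n) x ∈ U}).ncard : ℝ) := by
  intro 𝕂 _ X _ _ _ _ T h
  have e : ∀ (x : X) (U : Set X) (m N : ℕ), card {n | T^[n] x ∈ U} m N =
      (({n : ℕ | m ≤ n ∧ n < m + (N + 1) ∧ (T ^ n) x ∈ U}).ncard : ℝ) := fun x U m N => by
    unfold card
    congr 2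
    ext n
    simp only [Set.mem_inter_iff, Set.mem_ofPred_eq, Set.mem_Icc, FunLike.coe_pow_eq_iterate]
    constructor
    · rintro ⟨a, b, c⟩
      exact ⟨b, by omega, a⟩
    · rintro ⟨a, b, c⟩
      exact ⟨c, a, by omega⟩
  obtain ⟨M, h1, h2⟩ := H61.Ban.joint_ban.lin T (h.mono (fun x hx U hU => by
    obtain ⟨δ, hδ, hN⟩ := hx U hU
    refine ⟨δ, hδ, fun N => ?_⟩
    obtain ⟨m, hm⟩ := hN (N + 1) (by omega)
    exact ⟨m, by rw [e]; exact_mod_cast hm⟩))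
  refine ⟨M, h1, fun x hx U hU => ?_⟩
  obtain ⟨δ, hδ, hN⟩ := h2 hx U hU
  refine ⟨δ, hδ, fun N h1 => ?_⟩
  obtain ⟨N, rfl⟩ := Nat.exists_eq_add_of_le' h1
  obtain ⟨m, hm⟩ := hN N
  exact ⟨m, by rw [← e]; exact_mod_cast hm⟩

end Pool.Agent.Results.MP_94b3e1_an.Separable
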